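import Pool.Agent.H94.CB.H36.BP.Defs

/-!
# Project BP, metric half: definitions

`X` is the cone (without `0`) over a compact surface in `ℙ^N`, `K ⊆ X` the cone over the complement
of a curve (`K = X` in the compact case), `T` the cone over the total curve: it contains `X \ K`,
and `K ∩ T` is the exceptional set.
-/

open Topology Filter Metric

namespace Pool.Agent.H14.PP

open Pool.Agent.H36.BP (EN fs wd)

variable {N : ℕ}

/-- `X` is the cone (without the vertex) over a closed subset of projective space. -/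
structure IsCone (X : Set (EN N)) : Prop where
  zero_notMem : (0 : EN N) ∉ X
  smul_mem : ∀ x ∈ X, ∀ c : ℂ, c ≠ 0 → c • x ∈ X
  closed : IsClosed (insert 0 X)

/-- `F` is a holomorphic curve in `X` near `z₀`. -/
def CurveAt (X : Set (EN N)) (F : ℂ → EN N) (z₀ : ℂ) : Prop :=
  AnalyticAt ℂ F z₀ ∧ ∀ᶠ z in 𝓝 z₀, F z ∈ X

/-- `v` is a tangent vector of `X` at `x`: the derivative of a holomorphic curve in `X`. -/
def Tan (X : Set (EN N)) (x v : EN N) : Prop :=
  ∃ F : ℂ → EN N, CurveAt X F 0 ∧ F 0 = x ∧ deriv F 0 = v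

/-- A chart of the surface whose cone is `X`: `σ` is a lift of the inverse of the chart, defined on
the bidisc of radius `2`, `U` is an open cone, and `q` the chart, a pair of holomorphic functions on
`U` which are invariant under scaling. -/
structure Chart (X : Set (EN N)) where
  /-- the parametrization -/
  σ : ℂ × ℂ → EN N
  /-- the domain -/
  U : Set (EN N)
  /-- the coordinates -/
  q : EN N → ℂ × ℂ
  isOpen_U : IsOpen U
  smul_U : ∀ x ∈ U, ∀ c : ℂ, c ≠ 0 → c • x ∈ U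
  σ_an : ∀ p ∈ ball (0 : ℂ × ℂ) 2, AnalyticAt ℂ σ p
  q_an : ∀ x ∈ U, AnalyticAt ℂ q x
  q_smul : ∀ x ∈ U, ∀ c : ℂ, c ≠ 0 → q (c • x) = q x
  σ_mem : ∀ p ∈ ball (0 : ℂ × ℂ) 2, σ p ∈ X ∧ σ p ∈ U ∧ q (σ p) = p
  surj : ∀ x ∈ X, x ∈ U → q x ∈ ball (0 : ℂ × ℂ) 2 ∧ ∃ c : ℂ, c ≠ 0 ∧ x = c • σ (q x)

/-- A section of `m K (-j)` over the surface whose cone is `K`. -/
structure Form (K : Set (EN N)) (m j : ℕ) where
  /-- the form -/
  toFun : EN N → EN N → EN N → ℂ
  add_smul : ∀ x ∈ K, ∀ v w, Tan K x v → Tan K x w → ∀ a b : ℂ,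
    toFun x (v + a • x) (w + b • x) = toFun x v w
  det : ∀ x ∈ K, ∀ v w, Tan K x v → Tan K x w → ∀ a b c d : ℂ,
    toFun x (a • v + b • w) (c • v + d • w) = (a * d - b * c) ^ m * toFun x v w
  scale : ∀ x ∈ K, ∀ v w, Tan K x v → Tan K x w → ∀ c : ℂ, c ≠ 0 →
    c ^ j * toFun (c • x) (c • v) (c • w) = toFun x v w
  analytic : ∀ (φ : ℂ × ℂ → EN N) (p : ℂ × ℂ), AnalyticAt ℂ φ p → (∀ᶠ y in 𝓝 p, φ y ∈ K) →
    AnalyticAt ℂ (fun y => toFun (φ y) (fderiv ℂ φ y (1, 0)) (fderiv ℂ φ y (0, 1))) p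

section metric

variable {W : Type*} [NormedAddCommGroup W] [InnerProductSpace ℂ W]

/-- The size of the equations of `T`. -/
noncomputable def rho (Q : EN N → W) (D : ℕ) (x : EN N) : ℝ := ‖Q x‖ / ‖x‖ ^ D

/-- The equations `Q` of `T`: homogeneous polynomials of degree `D`. -/
structure IsEq (X T : Set (EN N)) (Q : EN N → W) (D : ℕ) : Prop where
  analytic : ∀ x, AnalyticAt ℂ Q x
  smul : ∀ (c : ℂ) (x : EN N), Q (c • x) = c ^ D • Q x
  mem_iff : ∀ x, x ∈ T ↔ x ∈ X ∧ Q x = 0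

end metric

end Pool.Agent.H14.PP
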