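import Pool.Agent.H94.CB.M22
import Pool.Agent.H94.CB.M38
import Pool.Agent.H94.CB.M45
import Pool.Agent.H94.CB.M60

/-!
# BPm LimNear: the metric tends to zero along curves which converge to the boundary

`F n` curves in `K` on `ball z₀ s`, `F n → H` locally uniformly, `H z₀ ≠ 0`, `H z ∉ K` on the ball.
Claim: `nearG i (F n z₀) ((F n)' z₀) → 0`.

`H` is holomorphic on the ball (locally uniform limit) and near `z₀` not `0`, `H z ∈ X` there
(`insert 0 X` is closed).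
Case A: not (`H z₀ ∈ U` and `‖q (H z₀)‖ ≤ 1`). The set `{x ∈ X | x ∈ U, ‖q x‖ ≤ 1}` is closed in `X`
(`Chart.isClosed`), so eventually `F n z₀` is not in it and `nearG i = 0`.
Case B: `H z₀ ∈ U`, `‖q (H z₀)‖ ≤ 1`. On a small closed ball around `z₀`, of radius `s'`, `H ∈ U` and
`(s_n, t_n) := q ∘ F n → (s, t) := q ∘ H` uniformly, all in a compact part of `U` (continuity of `q`,
compactness), the `F n` are in `U` there eventually; so `(s_n, t_n)` are holomorphic on the ball of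
radius `s'`, their derivatives at `z₀` converge, hence are bounded, and equal
`fderiv ℂ q (F n z₀) ((F n)' z₀)` (`Chart.curve`). If `‖q (F n z₀)‖ > 1` the piece is `0`; so let
`‖q (F n z₀)‖ ≤ 1`. `H z ∉ K` means `σ (q (H z)) ∉ K` (`Chart.sigma_mem_iff`), so by `DType` for
every `z` near `z₀`: (`d.1` and `s z = 0`) or (`d.2` and `t z = 0`); by analyticity one of the two
holds identically near `z₀`. Say `d.1 = true`, `s = 0` near `z₀` (the other case is symmetric, then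
`nd = true` by `hdn` and one exchanges `s` and `t`). `s_n` has no zero near `z₀`
(`s_n z = 0` would give `F n z ∉ K`), and if `d.2 = true` neither has `t_n`.
`ACoef_le`: `ACoef (q (F n z₀)) ≤ C ‖s_n‖^(-μ) (‖t_n‖^(-μ) if d.2)`, `μ = (m-1)/m`, at `z₀`.
All the factors `exp`, `(1 + M..)^e` in the pieces are bounded (by `1`, `2`).
* Normal piece: `≤ 2 C ‖s_n‖^(-μ) ‖s_n'‖ * (‖t_n‖^(1-κ-μ) ≤ 1 if nd and d.2; 1-κ-μ = 1/m - κ ≥ 0)`
  (if `nd`, not `d.2`: `‖t_n‖^(1-κ) ≤ 1`), and `‖s_n‖^(-μ) ‖s_n'‖ ≤ m η_n^(1/m)/s' → 0`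
  (`root_deriv`, `η_n = sup ‖s_n‖ → 0`).
* Tangential piece: `≤ 2 C ‖s_n‖^(1-κ-μ) ‖t_n'‖ (‖t_n‖^(-μ) if d.2)`; `‖s_n‖^(1/m-κ) → 0`
  (`κ < 1/m`), `‖t_n'‖` is bounded, and if `d.2` `‖t_n‖^(-μ) ‖t_n'‖` is bounded by `root_deriv`.
-/

open Topology Filter Metric

namespace Pool.Agent.H14.PP

attribute [-instance] ProperSMul.toContinuousSMul

open Pool.Agent.H36.BP

variable {N : ℕ} {W : Type*} [NormedAddCommGroup W] [InnerProductSpace ℂ W]
  {X K T : Set (EN N)} {m j : ℕ} {Ω : Form K m j} {n : ℕ} {χ : Fin n → Chart X}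
  {nd : Fin n → Bool} {P : Par} {Q : EN N → W} {D M' : ℕ} {δ c₁ : ℝ}

private theorem LimNear_comp {A C : Type*} [UniformSpace A] [UniformSpace C] {F : ℕ → ℂ → A}
    {H : ℂ → A} {l : Filter ℕ} {B : Set ℂ} (h : TendstoLocallyUniformlyOn F H l B)
    (hH : ContinuousOn H B) {g : A → C} (hg : ∀ z ∈ B, ContinuousAt g (H z)) :
    TendstoLocallyUniformlyOn (fun n z => g (F n z)) (fun z => g (H z)) l B := by
  rw [tendstoLocallyUniformlyOn_iff_forall_tendsto] at h ⊢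
  intro x hx
  have h1 := h x hx
  have h2 : Tendsto (fun y : ℕ × ℂ => H y.2) (l ×ˢ 𝓝[B] x) (𝓝 (H x)) :=
    (hH x hx).tendsto.comp tendsto_snd
  have h3 : Tendsto (fun y : ℕ × ℂ => F y.1 y.2) (l ×ˢ 𝓝[B] x) (𝓝 (H x)) := by
    rw [Uniform.tendsto_nhds_right]
    exact (Uniform.tendsto_nhds_right.1 h2).uniformity_trans h1
  have h4 : Tendsto (fun y : ℕ × ℂ => g (H y.2)) (l ×ˢ 𝓝[B] x) (𝓝 (g (H x))) :=
    (hg x hx).tendsto.comp h2
  have h5 : Tendsto (fun y : ℕ × ℂ => g (F y.1 y.2)) (l ×ˢ 𝓝[B] x) (𝓝 (g (H x))) :=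
    (hg x hx).tendsto.comp h3
  exact (Uniform.tendsto_nhds_left.1 h4).uniformity_trans (Uniform.tendsto_nhds_right.1 h5)

/-- the factor of `ACoef` -/
private noncomputable def LimNear_g (m : ℕ) (f : Bool) (x : ℝ) : ℝ :=
  if f = true then x ^ (-(((m : ℝ) - 1) / m)) else 1

private theorem LimNear_g_nonneg (m : ℕ) (f : Bool) {x : ℝ} (hx : 0 ≤ x) : 0 ≤ LimNear_g m f x := by
  unfold LimNear_g
  split_ifs
  · exact Real.rpow_nonneg hx _
  · exact zero_le_one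

private theorem LimNear_gD (m : ℕ) (d : Bool × Bool) (p : ℂ × ℂ) :
    ‖gD d p‖ ^ (-(((m : ℝ) - 1) / m)) = LimNear_g m d.1 ‖p.1‖ * LimNear_g m d.2 ‖p.2‖ := by
  unfold gD LimNear_g
  rw [norm_mul, Real.mul_rpow (norm_nonneg _) (norm_nonneg _)]
  congr 1
  · split_ifs
    · rfl
    · rw [norm_one, Real.one_rpow]
  · split_ifs
    · rfl
    · rw [norm_one, Real.one_rpow]

private theorem LimNear_g_true {m : ℕ} (hm : 1 ≤ m) {κ x : ℝ} (hx : 0 < x) :
    LimNear_g m true x * x ^ (1 - κ) = x ^ (1 / (m : ℝ) - κ) := by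
  have hm0 : (m : ℝ) ≠ 0 := by
    have : 0 < m := hm
    exact_mod_cast this.ne'
  unfold LimNear_g
  rw [if_pos rfl, ← Real.rpow_add hx]
  congr 1
  field_simp
  ring

private theorem LimNear_g_le_one {m : ℕ} (hm : 1 ≤ m) {κ : ℝ} (hκ : κ < 1 / (m : ℝ))
    (hκ1 : κ ≤ 1) {f : Bool} {x : ℝ}
    (hx : 0 ≤ x) (hx1 : x ≤ 1) (hf : f = true → 0 < x) : LimNear_g m f x * x ^ (1 - κ) ≤ 1 := by
  cases f with
  | true =>
    rw [LimNear_g_true hm (hf rfl)]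
    exact Real.rpow_le_one hx hx1 (by linarith)
  | false =>
    unfold LimNear_g
    rw [if_neg (by simp), one_mul]
    exact Real.rpow_le_one hx hx1 (by linarith)

private theorem LimNear_two {P : Par} (hP : ConvPar P) {x : ℝ} (hx : 0 ≤ x) (hx1 : x ≤ 1) :
    (1 + P.M * x ^ (2 * P.κ)) ^ P.e ≤ 2 := by
  have hM := hP.M_ge
  have h1 : x ^ (2 * P.κ) ≤ 1 := Real.rpow_le_one hx hx1 (by linarith [hP.κ_pos])
  have h0 : 0 ≤ x ^ (2 * P.κ) := Real.rpow_nonneg hx _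
  have h2 : 1 + P.M * x ^ (2 * P.κ) ≤ 1 + P.M := by nlinarith
  have h3 : 0 ≤ 1 + P.M * x ^ (2 * P.κ) := by nlinarith
  have h4 : (1 + P.M * x ^ (2 * P.κ)) ^ P.e ≤ (1 + P.M) ^ P.e :=
    Real.rpow_le_rpow h3 h2 hP.e_pos.le
  refine h4.trans ?_
  rw [Real.rpow_def_of_pos (by linarith : (0 : ℝ) < 1 + P.M)]
  have h5 : Real.log (1 + P.M) * P.e ≤ 1 / 16 := by
    have := hP.e_log
    have := hP.ε_le
    nlinarith
  have h6 : Real.exp (Real.log (1 + P.M) * P.e) ≤ Real.exp (1 / 16) := Real.exp_le_exp.2 h5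
  have h7 : Real.exp (1 / 16 : ℝ) ≤ 2 := by
    have h8 : (1 / 16 : ℝ) ≤ Real.log 2 := by
      have := Real.log_two_gt_d9
      linarith
    calc Real.exp (1 / 16 : ℝ) ≤ Real.exp (Real.log 2) := Real.exp_le_exp.2 h8
      _ = 2 := Real.exp_log (by norm_num)
  exact h6.trans h7

private theorem LimNear_pN {P : Par} (hP : ConvPar P) (nd : Bool) {s t : ℂ} (hs : ‖s‖ ≤ 1)
    (s' : ℂ) :
    pN nd P s t s' ≤ 2 * ((if nd = true then ‖t‖ ^ (1 - P.κ) else 1) * ‖s'‖) := by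
  unfold pN
  have h1 := LimNear_two hP (norm_nonneg s) hs
  have h1' : 0 ≤ (1 + P.M * ‖s‖ ^ (2 * P.κ)) ^ P.e := by
    apply Real.rpow_nonneg
    have := hP.M_ge
    have h0 : 0 ≤ ‖s‖ ^ (2 * P.κ) := Real.rpow_nonneg (norm_nonneg _) _
    nlinarith
  have h2 : Real.exp (-P.K * ‖t‖ ^ 2) ≤ 1 := by
    rw [Real.exp_le_one_iff]
    have := hP.K_pos
    have h0 : 0 ≤ ‖t‖ ^ 2 := by positivity
    nlinarith
  have h3 : (if nd = true then ‖t‖ ^ (1 - P.κ) * Real.exp (-P.ε * ‖s‖ ^ 2) else 1) ≤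
      (if nd = true then ‖t‖ ^ (1 - P.κ) else 1) := by
    split_ifs
    · have h4 : Real.exp (-P.ε * ‖s‖ ^ 2) ≤ 1 := by
        rw [Real.exp_le_one_iff]
        have := hP.ε_pos
        have h0 : 0 ≤ ‖s‖ ^ 2 := by positivity
        nlinarith
      calc ‖t‖ ^ (1 - P.κ) * Real.exp (-P.ε * ‖s‖ ^ 2) ≤ ‖t‖ ^ (1 - P.κ) * 1 :=
            mul_le_mul_of_nonneg_left h4 (Real.rpow_nonneg (norm_nonneg _) _)
        _ = _ := mul_one _
    · exact le_rfl
  have h3' : 0 ≤ (if nd = true then ‖t‖ ^ (1 - P.κ) * Real.exp (-P.ε * ‖s‖ ^ 2) else (1 : ℝ)) := by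
    split_ifs
    · positivity
    · exact zero_le_one
  have h5 : 0 ≤ (if nd = true then ‖t‖ ^ (1 - P.κ) else (1 : ℝ)) := h3'.trans h3
  calc (if nd = true then ‖t‖ ^ (1 - P.κ) * Real.exp (-P.ε * ‖s‖ ^ 2) else 1) * ‖s'‖ *
        (1 + P.M * ‖s‖ ^ (2 * P.κ)) ^ P.e * Real.exp (-P.K * ‖t‖ ^ 2)
      ≤ (if nd = true then ‖t‖ ^ (1 - P.κ) else 1) * ‖s'‖ * 2 * 1 := by
        apply mul_le_mul _ h2 (Real.exp_nonneg _)
        · positivity
        · apply mul_le_mul _ h1 h1'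
          · positivity
          · exact mul_le_mul_of_nonneg_right h3 (norm_nonneg _)
    _ = _ := by ring

private theorem LimNear_pT {P : Par} (hP : ConvPar P) (nd : Bool) {s t : ℂ} (ht : ‖t‖ ≤ 1)
    (t' : ℂ) : pT nd P s t t' ≤ 2 * (‖s‖ ^ (1 - P.κ) * ‖t'‖) := by
  unfold pT
  split_ifs with hnd
  · have h := LimNear_pN (nd := true) hP (s := t) (t := s) ht t'
    rwa [if_pos rfl] at h
  · have h4 : Real.exp (-P.ε * ‖t‖ ^ 2) ≤ 1 := by
      rw [Real.exp_le_one_iff]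
      have := hP.ε_pos
      have h0 : 0 ≤ ‖t‖ ^ 2 := by positivity
      nlinarith
    have h5 : 0 ≤ ‖s‖ ^ (1 - P.κ) * ‖t'‖ := by positivity
    nlinarith [mul_le_mul_of_nonneg_left h4 h5]

/-- the estimate of the near piece -/
private theorem LimNear_est {χ : Chart X} {nd : Bool} (hP : ConvPar P) {d : Bool × Bool} {C : ℝ}
    (hC0 : 0 < C) (hC : ∀ p ∈ closedBall (0 : ℂ × ℂ) 1, χ.σ p ∈ K →
        ACoef Ω χ p ≤ C * ‖gD d p‖ ^ (-(((m : ℝ) - 1) / m)))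
    {p w : ℂ × ℂ} (hp : ‖p‖ ≤ 1) (hpK : χ.σ p ∈ K) (e : ℝ)
    (ha : LimNear_g m d.1 ‖p.1‖ * ‖w.1‖ *
      (LimNear_g m d.2 ‖p.2‖ * (if nd = true then ‖p.2‖ ^ (1 - P.κ) else 1)) ≤ e)
    (hb : LimNear_g m d.2 ‖p.2‖ * ‖w.2‖ * (LimNear_g m d.1 ‖p.1‖ * ‖p.1‖ ^ (1 - P.κ)) ≤ e) :
    ACoef Ω χ p * pM nd P p w ≤ 2 * C * e := by
  have hp1 : ‖p.1‖ ≤ 1 := (norm_fst_le p).trans hp
  have hp2 : ‖p.2‖ ≤ 1 := (norm_snd_le p).trans hp
  have hM : 0 ≤ P.M := by linarith [hP.M_ge]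
  have h1 := hC p (by rwa [mem_closedBall_zero_iff]) hpK
  rw [LimNear_gD] at h1
  have hg1 := LimNear_g_nonneg m d.1 (norm_nonneg p.1)
  have hg2 := LimNear_g_nonneg m d.2 (norm_nonneg p.2)
  unfold pM
  rcases max_cases (pN nd P p.1 p.2 w.1) (pT nd P p.1 p.2 w.2) with ⟨hmax, _⟩ | ⟨hmax, _⟩
  · rw [hmax]
    calc ACoef Ω χ p * pN nd P p.1 p.2 w.1
        ≤ (C * (LimNear_g m d.1 ‖p.1‖ * LimNear_g m d.2 ‖p.2‖)) *
          (2 * ((if nd = true then ‖p.2‖ ^ (1 - P.κ) else 1) * ‖w.1‖)) := by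
          apply mul_le_mul h1 (LimNear_pN hP nd hp1 _) (pN_nonneg hM _ _ _ _)
          positivity
      _ = 2 * C * (LimNear_g m d.1 ‖p.1‖ * ‖w.1‖ *
          (LimNear_g m d.2 ‖p.2‖ * (if nd = true then ‖p.2‖ ^ (1 - P.κ) else 1))) := by ring
      _ ≤ 2 * C * e := mul_le_mul_of_nonneg_left ha (by positivity)
  · rw [hmax]
    calc ACoef Ω χ p * pT nd P p.1 p.2 w.2
        ≤ (C * (LimNear_g m d.1 ‖p.1‖ * LimNear_g m d.2 ‖p.2‖)) *
          (2 * (‖p.1‖ ^ (1 - P.κ) * ‖w.2‖)) := by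
          apply mul_le_mul h1 (LimNear_pT hP nd hp2 _) (pT_nonneg hM _ _ _ _)
          positivity
      _ = 2 * C * (LimNear_g m d.2 ‖p.2‖ * ‖w.2‖ * (LimNear_g m d.1 ‖p.1‖ *
          ‖p.1‖ ^ (1 - P.κ))) := by ring
      _ ≤ 2 * C * e := mul_le_mul_of_nonneg_left hb (by positivity)

/-- bound for the logarithmic type derivative of one coordinate, bounded by `η` -/
private theorem LimNear_root {f : ℂ → ℂ} {z₀ : ℂ} {r η : ℝ} (hr : 0 < r) {m : ℕ} (hm : 1 ≤ m)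
    (hf : ∀ z ∈ closedBall z₀ r, DifferentiableAt ℂ f z) {fl : Bool}
    (h0 : fl = true → ∀ z ∈ closedBall z₀ r, f z ≠ 0)
    (h1 : ∀ z ∈ closedBall z₀ r, ‖f z‖ ≤ η) :
    LimNear_g m fl ‖f z₀‖ * ‖deriv f z₀‖ ≤ max (m * η ^ (1 / (m : ℝ)) / r) (η / r) := by
  unfold LimNear_g
  split_ifs with hfl
  · refine le_trans ?_ (le_max_left _ _)
    refine root_deriv hr ?_ ?_ ?_ hm
    · intro z hz
      exact (hf z (ball_subset_closedBall hz)).differentiableWithinAt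
    · intro z hz
      exact h0 hfl z (ball_subset_closedBall hz)
    · intro z hz
      exact h1 z (ball_subset_closedBall hz)
  · refine le_trans ?_ (le_max_right _ _)
    rw [one_mul]
    refine Complex.norm_deriv_le_of_forall_mem_sphere_norm_le hr ?_ ?_
    · apply DifferentiableOn.diffContOnCl
      intro z hz
      have hz' : z ∈ closedBall z₀ r := closure_ball_subset_closedBall hz
      exact (hf z hz').differentiableWithinAt
    · intro z hz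
      exact h1 z (sphere_subset_closedBall hz)

private theorem LimNear_type (hK : IsOpenPart X K) (χ : Chart X)
    {d : Bool × Bool} (hd : DType K χ d) {H : ℂ → EN N} {z₀ : ℂ} {s : ℝ} (hs : 0 < s)
    (hHd : DifferentiableOn ℂ H (ball z₀ s)) (hHX : ∀ z ∈ ball z₀ s, H z ∈ insert (0 : EN N) X)
    (h0 : H z₀ ≠ 0) (hHU : H z₀ ∈ χ.U) (hH : ∀ z ∈ ball z₀ s, H z ∉ K) :
    ∃ r : ℝ, 0 < r ∧ closedBall z₀ r ⊆ ball z₀ s ∧ (∀ z ∈ closedBall z₀ r, H z ∈ χ.U) ∧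
      ((d.1 = true ∧ ∀ z ∈ closedBall z₀ r, (χ.q (H z)).1 = 0) ∨
        (d.2 = true ∧ ∀ z ∈ closedBall z₀ r, (χ.q (H z)).2 = 0)) := by
  have hz₀ : z₀ ∈ ball z₀ s := mem_ball_self hs
  have han : AnalyticAt ℂ H z₀ := hHd.analyticAt (isOpen_ball.mem_nhds hz₀)
  have hqan : AnalyticAt ℂ (fun z => χ.q (H z)) z₀ :=
    AnalyticAt.comp (g := χ.q) (f := H) (χ.q_an _ hHU) han
  have hq1 : AnalyticAt ℂ (fun z => (χ.q (H z)).1) z₀ :=
    AnalyticAt.comp (g := fun p : ℂ × ℂ => p.1) (f := fun z => χ.q (H z)) analyticAt_fst hqan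
  have hq2 : AnalyticAt ℂ (fun z => (χ.q (H z)).2) z₀ :=
    AnalyticAt.comp (g := fun p : ℂ × ℂ => p.2) (f := fun z => χ.q (H z)) analyticAt_snd hqan
  have e1 : ∀ᶠ z in 𝓝 z₀, z ∈ ball z₀ s := isOpen_ball.mem_nhds hz₀
  have e2 : ∀ᶠ z in 𝓝 z₀, H z ∈ χ.U := han.continuousAt.eventually (χ.isOpen_U.mem_nhds hHU)
  have e3 : ∀ᶠ z in 𝓝 z₀, H z ≠ 0 := han.continuousAt.eventually_ne h0
  have e4 : ∀ᶠ z in 𝓝 z₀, (d.1 = true ∧ (χ.q (H z)).1 = 0) ∨ (d.2 = true ∧ (χ.q (H z)).2 = 0) := by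
    filter_upwards [e1, e2, e3] with z h1 h2 h3
    have hXz : H z ∈ X := (hHX z h1).resolve_left h3
    have h4 : χ.σ (χ.q (H z)) ∉ K := by
      rw [Chart.sigma_mem_iff χ hXz h2 (S := K) hK.smul_mem]
      exact hH z h1
    exact (hd _ (χ.surj _ hXz h2).1).1 h4
  have key : (d.1 = true ∧ ∀ᶠ z in 𝓝 z₀, (χ.q (H z)).1 = 0) ∨
      (d.2 = true ∧ ∀ᶠ z in 𝓝 z₀, (χ.q (H z)).2 = 0) := by
    by_contra hcon
    rw [not_or, not_and, not_and] at hcon
    obtain ⟨c1, c2⟩ := hcon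
    have a1 : ∀ᶠ z in 𝓝[≠] z₀, ¬ (d.1 = true ∧ (χ.q (H z)).1 = 0) := by
      by_cases hd1 : d.1 = true
      · rcases hq1.eventually_eq_zero_or_eventually_ne_zero with h | h
        · exact absurd h (c1 hd1)
        · filter_upwards [h] with z hz
          exact fun h' => hz h'.2
      · exact Eventually.of_forall fun z h' => hd1 h'.1
    have a2 : ∀ᶠ z in 𝓝[≠] z₀, ¬ (d.2 = true ∧ (χ.q (H z)).2 = 0) := by
      by_cases hd2 : d.2 = true
      · rcases hq2.eventually_eq_zero_or_eventually_ne_zero with h | h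
        · exact absurd h (c2 hd2)
        · filter_upwards [h] with z hz
          exact fun h' => hz h'.2
      · exact Eventually.of_forall fun z h' => hd2 h'.1
    obtain ⟨z, hz1, hz2, hz3⟩ := (a1.and (a2.and (e4.filter_mono nhdsWithin_le_nhds))).exists
    rcases hz3 with h | h
    · exact hz1 h
    · exact hz2 h
  rcases key with ⟨k1, k2⟩ | ⟨k1, k2⟩
  · obtain ⟨r, hr, hsub⟩ := Metric.nhds_basis_closedBall.mem_iff.1 (e1.and (e2.and k2))
    exact ⟨r, hr, fun z hz => (hsub hz).1, fun z hz => (hsub hz).2.1,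
      Or.inl ⟨k1, fun z hz => (hsub hz).2.2⟩⟩
  · obtain ⟨r, hr, hsub⟩ := Metric.nhds_basis_closedBall.mem_iff.1 (e1.and (e2.and k2))
    exact ⟨r, hr, fun z hz => (hsub hz).1, fun z hz => (hsub hz).2.1,
      Or.inr ⟨k1, fun z hz => (hsub hz).2.2⟩⟩

private theorem LimNear_small {m : ℕ} (hm : 1 ≤ m) {κ C B r ε : ℝ} (hκ : κ < 1 / (m : ℝ))
    (hε : 0 < ε) : ∃ η : ℝ, 0 < η ∧ 2 * C * max (m * η ^ (1 / (m : ℝ)) / r) (η / r) < ε ∧
      2 * C * (B * η ^ (1 / (m : ℝ) - κ)) < ε := by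
  have hm0 : (0 : ℝ) < 1 / (m : ℝ) := by
    have : (0 : ℝ) < m := by exact_mod_cast hm
    positivity
  have t1 : Tendsto (fun η : ℝ => η ^ (1 / (m : ℝ))) (𝓝 0) (𝓝 0) := by
    have := (Real.continuousAt_rpow_const 0 (1 / (m : ℝ)) (Or.inr hm0.le)).tendsto
    rwa [Real.zero_rpow hm0.ne'] at this
  have t2 : Tendsto (fun η : ℝ => η ^ (1 / (m : ℝ) - κ)) (𝓝 0) (𝓝 0) := by
    have hp : 0 < 1 / (m : ℝ) - κ := by linarith
    have := (Real.continuousAt_rpow_const 0 (1 / (m : ℝ) - κ) (Or.inr hp.le)).tendsto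
    rwa [Real.zero_rpow hp.ne'] at this
  have t3 : Tendsto (fun η : ℝ => 2 * C * max (m * η ^ (1 / (m : ℝ)) / r) (η / r)) (𝓝 0) (𝓝 0) := by
    have h1 : Tendsto (fun η : ℝ => m * η ^ (1 / (m : ℝ)) / r) (𝓝 0) (𝓝 (m * 0 / r)) :=
      (t1.const_mul _).div_const _
    have h2 : Tendsto (fun η : ℝ => η / r) (𝓝 0) (𝓝 (0 / r)) := tendsto_id.div_const _
    have h3 := (h1.max h2).const_mul (2 * C)
    simpa using h3
  have t4 : Tendsto (fun η : ℝ => 2 * C * (B * η ^ (1 / (m : ℝ) - κ))) (𝓝 0) (𝓝 0) := by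
    have h3 := (t2.const_mul B).const_mul (2 * C)
    simpa using h3
  have e1 := (t3.eventually (gt_mem_nhds hε)).filter_mono (nhdsWithin_le_nhds (s := Set.Ioi 0))
  have e2 := (t4.eventually (gt_mem_nhds hε)).filter_mono (nhdsWithin_le_nhds (s := Set.Ioi 0))
  have e3 : ∀ᶠ η : ℝ in 𝓝[>] 0, 0 < η := self_mem_nhdsWithin
  obtain ⟨η, h1, h2, h3⟩ := (e1.and (e2.and e3)).exists
  exact ⟨η, h3, h1, h2⟩

theorem lim_near (hX : IsCone X) (hK : IsOpenPart X K) (hm : 1 ≤ m) (hΩ : Ω.PoleBound X)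
    (hP : ConvPar P) (hκ : P.κ < 1 / (m : ℝ)) {i : Fin n} {d : Bool × Bool}
    (hd : DType K (χ i) d) (hdn : d.2 = true → nd i = true) (l : Filter ℕ) (hl : l.NeBot)
    {F : ℕ → ℂ → EN N} {H : ℂ → EN N} {z₀ : ℂ} {s : ℝ} (hs : 0 < s)
    (hF : ∀ᶠ k in l, Curve K (ball z₀ s) (F k))
    (hlim : TendstoLocallyUniformlyOn F H l (ball z₀ s)) (h0 : H z₀ ≠ 0)
    (hH : ∀ z ∈ ball z₀ s, H z ∉ K) {ε : ℝ} (hε : 0 < ε) :
    ∀ᶠ k in l, nearG Ω χ nd P Q D δ i (F k z₀) (deriv (F k) z₀) < ε := by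
  have hev : ∀ᶠ k in l, DifferentiableOn ℂ (F k) (ball z₀ s) := hF.mono fun k hk => hk.1
  have hHd : DifferentiableOn ℂ H (ball z₀ s) := hlim.differentiableOn hev isOpen_ball
  have hHc : ContinuousOn H (ball z₀ s) := hHd.continuousOn
  have hHX : ∀ z ∈ ball z₀ s, H z ∈ insert (0 : EN N) X := by
    intro z hz
    refine hX.closed.mem_of_tendsto (hlim.tendsto_at hz) ?_
    filter_upwards [hF] with k hk
    exact Set.mem_insert_of_mem _ (hK.subset (hk.2 z hz))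
  have hz₀ : z₀ ∈ ball z₀ s := mem_ball_self hs
  have hconv : Tendsto (fun k => F k z₀) l (𝓝 (H z₀)) := hlim.tendsto_at hz₀
  by_cases hB : H z₀ ∈ (χ i).U ∧ ‖(χ i).q (H z₀)‖ ≤ 1
  swap
  · have hcl := (χ i).isClosed hX (zero_le_one) (by norm_num : (1 : ℝ) < 2)
    have hnot : H z₀ ∉ insert (0 : EN N) {x | x ∈ X ∧ x ∈ (χ i).U ∧ ‖(χ i).q x‖ ≤ 1} := by
      rintro (h | ⟨_, h2, h3⟩)
      · exact h0 h
      · exact hB ⟨h2, h3⟩
    have hev2 := hconv.eventually (hcl.isOpen_compl.mem_nhds hnot)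
    filter_upwards [hev2] with k hk
    have hnp : ¬ 0 < nearG Ω χ nd P Q D δ i (F k z₀) (deriv (F k) z₀) := by
      intro hpos
      obtain ⟨h1, h2, h3, _⟩ := mem_of_nearG_pos hpos
      exact hk (Set.mem_insert_of_mem _ ⟨h1, h2, h3⟩)
    linarith [not_lt.1 hnp]
  · obtain ⟨hBU, _⟩ := hB
    obtain ⟨r, hr, hsub, hrU, htype⟩ := LimNear_type hK (χ i) hd hs hHd hHX h0 hBU hH
    obtain ⟨C, hC0, hC⟩ := ACoef_le hX hm Ω hΩ (χ i) hd
    have hcomp : IsCompact (closedBall z₀ r) := isCompact_closedBall z₀ r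
    have h4 : TendstoUniformlyOn F H l (closedBall z₀ r) :=
      (tendstoLocallyUniformlyOn_iff_tendstoUniformlyOn_of_compact hcomp).1 (hlim.mono hsub)
    have h3 : TendstoUniformlyOn (fun k z => (χ i).q (F k z)) (fun z => (χ i).q (H z)) l
        (closedBall z₀ r) :=
      (tendstoLocallyUniformlyOn_iff_tendstoUniformlyOn_of_compact hcomp).1
        (LimNear_comp (hlim.mono hsub) (hHc.mono hsub)
          (fun z hz => ((χ i).q_an _ (hrU z hz)).continuousAt))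
    have h5 : ∀ᶠ k in l, ∀ z ∈ closedBall z₀ r, F k z ∈ (χ i).U := by
      have himg : IsCompact (H '' closedBall z₀ r) := hcomp.image_of_continuousOn (hHc.mono hsub)
      obtain ⟨ρ', hρ', hthick⟩ := himg.exists_thickening_subset_open (χ i).isOpen_U
        (by rintro _ ⟨z, hz, rfl⟩; exact hrU z hz)
      filter_upwards [Metric.tendstoUniformlyOn_iff.1 h4 ρ' hρ'] with k hk z hz
      refine hthick ?_
      rw [Metric.mem_thickening_iff]
      exact ⟨H z, ⟨z, hz, rfl⟩, by rw [dist_comm]; exact hk z hz⟩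
    -- the constant for the bounded coordinate
    let B : ℝ := max (m * (2 : ℝ) ^ (1 / (m : ℝ)) / r) (2 / r)
    obtain ⟨η, hη, hη1, hη2⟩ := LimNear_small (C := C) (B := B) (r := r) hm hκ hε
    have h6 : ∀ᶠ k in l, ∀ z ∈ closedBall z₀ r,
        dist ((χ i).q (H z)) ((χ i).q (F k z)) < η := Metric.tendstoUniformlyOn_iff.1 h3 η hη
    filter_upwards [hF, h5, h6] with k hk1 hk2 hk3
    by_cases hpos : 0 < nearG Ω χ nd P Q D δ i (F k z₀) (deriv (F k) z₀)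
    swap
    · linarith [not_lt.1 hpos]
    obtain ⟨g1, g2, g3, g4⟩ := mem_of_nearG_pos hpos
    rw [nearG_of_mem g1 g2 g3 g4]
    have hzr : z₀ ∈ closedBall z₀ r := mem_closedBall_self hr.le
    have hFd : ∀ z ∈ closedBall z₀ r, DifferentiableAt ℂ (F k) z := fun z hz =>
      hk1.1.differentiableAt (isOpen_ball.mem_nhds (hsub hz))
    have hFX : ∀ z ∈ closedBall z₀ r, F k z ∈ X := fun z hz => hK.subset (hk1.2 z (hsub hz))
    have hqd : ∀ z ∈ closedBall z₀ r, DifferentiableAt ℂ (fun z => (χ i).q (F k z)) z :=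
      fun z hz => DifferentiableAt.comp (g := (χ i).q) (f := F k) z
        ((χ i).q_an _ (hk2 z hz)).differentiableAt (hFd z hz)
    have hq1 : ∀ z ∈ closedBall z₀ r, DifferentiableAt ℂ (fun z => ((χ i).q (F k z)).1) z :=
      fun z hz => (hqd z hz).fst
    have hq2 : ∀ z ∈ closedBall z₀ r, DifferentiableAt ℂ (fun z => ((χ i).q (F k z)).2) z :=
      fun z hz => (hqd z hz).snd
    have hder : fderiv ℂ (χ i).q (F k z₀) (deriv (F k) z₀) =
        deriv (fun z => (χ i).q (F k z)) z₀ := by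
      have h7 := (((χ i).q_an _ g2).differentiableAt.hasFDerivAt).comp_hasDerivAt z₀
        (hFd z₀ hzr).hasDerivAt
      exact h7.deriv.symm
    have hder1 : (fderiv ℂ (χ i).q (F k z₀) (deriv (F k) z₀)).1 =
        deriv (fun z => ((χ i).q (F k z)).1) z₀ := by
      rw [hder]
      exact ((ContinuousLinearMap.fst ℂ ℂ ℂ).hasFDerivAt.comp_hasDerivAt z₀
        (hqd z₀ hzr).hasDerivAt).deriv.symm
    have hder2 : (fderiv ℂ (χ i).q (F k z₀) (deriv (F k) z₀)).2 =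
        deriv (fun z => ((χ i).q (F k z)).2) z₀ := by
      rw [hder]
      exact ((ContinuousLinearMap.snd ℂ ℂ ℂ).hasFDerivAt.comp_hasDerivAt z₀
        (hqd z₀ hzr).hasDerivAt).deriv.symm
    have hσK : ∀ z ∈ closedBall z₀ r, (χ i).σ ((χ i).q (F k z)) ∈ K := fun z hz =>
      (Chart.sigma_mem_iff (χ i) (hFX z hz) (hk2 z hz) (S := K) hK.smul_mem).2 (hk1.2 z (hsub hz))
    have hball : ∀ z ∈ closedBall z₀ r, (χ i).q (F k z) ∈ ball (0 : ℂ × ℂ) 2 := fun z hz =>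
      ((χ i).surj _ (hFX z hz) (hk2 z hz)).1
    have hne : ∀ z ∈ closedBall z₀ r, ¬ ((d.1 = true ∧ ((χ i).q (F k z)).1 = 0) ∨
        (d.2 = true ∧ ((χ i).q (F k z)).2 = 0)) := fun z hz h' =>
      (hd _ (hball z hz)).2 h' (hσK z hz)
    have hn1 : d.1 = true → ∀ z ∈ closedBall z₀ r, ((χ i).q (F k z)).1 ≠ 0 :=
      fun h' z hz h'' => hne z hz (Or.inl ⟨h', h''⟩)
    have hn2 : d.2 = true → ∀ z ∈ closedBall z₀ r, ((χ i).q (F k z)).2 ≠ 0 :=
      fun h' z hz h'' => hne z hz (Or.inr ⟨h', h''⟩)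
    have hb1 : ∀ z ∈ closedBall z₀ r, ‖((χ i).q (F k z)).1‖ ≤ 2 := fun z hz =>
      (norm_fst_le _).trans (mem_ball_zero_iff.1 (hball z hz)).le
    have hb2 : ∀ z ∈ closedBall z₀ r, ‖((χ i).q (F k z)).2‖ ≤ 2 := fun z hz =>
      (norm_snd_le _).trans (mem_ball_zero_iff.1 (hball z hz)).le
    have hp1 : ‖((χ i).q (F k z₀)).1‖ ≤ 1 := (norm_fst_le _).trans g3
    have hp2 : ‖((χ i).q (F k z₀)).2‖ ≤ 1 := (norm_snd_le _).trans g3
    have hκ1 : P.κ ≤ 1 := by linarith [hP.κ_le]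
    have hBnn : 0 ≤ B := le_trans (by positivity) (le_max_right _ _)
    have hEnn : 0 ≤ max (m * η ^ (1 / (m : ℝ)) / r) (η / r) :=
      le_trans (by positivity) (le_max_right _ _)
    have hdist : ∀ z ∈ closedBall z₀ r,
        ‖((χ i).q (H z)).1 - ((χ i).q (F k z)).1‖ ≤ η ∧
        ‖((χ i).q (H z)).2 - ((χ i).q (F k z)).2‖ ≤ η := by
      intro z hz
      have h8 := hk3 z hz
      rw [dist_eq_norm] at h8
      exact ⟨(norm_fst_le _).trans h8.le, (norm_snd_le _).trans h8.le⟩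
    have hlam : 0 < 1 / (m : ℝ) - P.κ := by linarith
    -- bounds valid in both cases
    have r1 : LimNear_g m d.1 ‖((χ i).q (F k z₀)).1‖ *
        ‖(fderiv ℂ (χ i).q (F k z₀) (deriv (F k) z₀)).1‖ ≤ B := by
      rw [hder1]
      exact LimNear_root hr hm hq1 hn1 hb1
    have r2 : LimNear_g m d.2 ‖((χ i).q (F k z₀)).2‖ *
        ‖(fderiv ℂ (χ i).q (F k z₀) (deriv (F k) z₀)).2‖ ≤ B := by
      rw [hder2]
      exact LimNear_root hr hm hq2 hn2 hb2
    have f1 : LimNear_g m d.1 ‖((χ i).q (F k z₀)).1‖ * ‖((χ i).q (F k z₀)).1‖ ^ (1 - P.κ) ≤ 1 :=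
      LimNear_g_le_one hm hκ hκ1 (norm_nonneg _) hp1
        (fun h' => norm_pos_iff.2 (hn1 h' z₀ hzr))
    have f1' : 0 ≤ LimNear_g m d.1 ‖((χ i).q (F k z₀)).1‖ *
        ‖((χ i).q (F k z₀)).1‖ ^ (1 - P.κ) :=
      mul_nonneg (LimNear_g_nonneg _ _ (norm_nonneg _)) (Real.rpow_nonneg (norm_nonneg _) _)
    have f2 : LimNear_g m d.2 ‖((χ i).q (F k z₀)).2‖ *
        (if nd i = true then ‖((χ i).q (F k z₀)).2‖ ^ (1 - P.κ) else 1) ≤ 1 := by
      split_ifs with hnd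
      · exact LimNear_g_le_one hm hκ hκ1 (norm_nonneg _) hp2
          (fun h' => norm_pos_iff.2 (hn2 h' z₀ hzr))
      · unfold LimNear_g
        rw [if_neg (fun h' => hnd (hdn h')), one_mul]
    have f2' : 0 ≤ LimNear_g m d.2 ‖((χ i).q (F k z₀)).2‖ *
        (if nd i = true then ‖((χ i).q (F k z₀)).2‖ ^ (1 - P.κ) else 1) := by
      refine mul_nonneg (LimNear_g_nonneg _ _ (norm_nonneg _)) ?_
      split_ifs
      · exact Real.rpow_nonneg (norm_nonneg _) _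
      · exact zero_le_one
    have hEst := LimNear_est (Ω := Ω) (χ := χ i) (nd := nd i) hP hC0 hC (d := d)
      (p := (χ i).q (F k z₀)) (w := fderiv ℂ (χ i).q (F k z₀) (deriv (F k) z₀)) g3 (hσK z₀ hzr)
    rcases htype with ⟨t1, t2⟩ | ⟨t1, t2⟩
    · -- the first coordinate tends to zero
      have hs1 : ∀ z ∈ closedBall z₀ r, ‖((χ i).q (F k z)).1‖ ≤ η := by
        intro z hz
        have := (hdist z hz).1
        rwa [t2 z hz, zero_sub, norm_neg] at this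
      have r3 : LimNear_g m d.1 ‖((χ i).q (F k z₀)).1‖ *
          ‖(fderiv ℂ (χ i).q (F k z₀) (deriv (F k) z₀)).1‖ ≤
          max (m * η ^ (1 / (m : ℝ)) / r) (η / r) := by
        rw [hder1]
        exact LimNear_root hr hm hq1 hn1 hs1
      have f3 : LimNear_g m d.1 ‖((χ i).q (F k z₀)).1‖ * ‖((χ i).q (F k z₀)).1‖ ^ (1 - P.κ) ≤
          η ^ (1 / (m : ℝ) - P.κ) := by
        rw [t1, LimNear_g_true hm (norm_pos_iff.2 (hn1 t1 z₀ hzr))]
        exact Real.rpow_le_rpow (norm_nonneg _) (hs1 z₀ hzr) hlam.le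
      have u1 := mul_le_mul r3 f2 f2' hEnn
      have u2 := mul_le_mul r2 f3 f1' hBnn
      rw [mul_one] at u1
      have hE := hEst (max (max (m * η ^ (1 / (m : ℝ)) / r) (η / r))
        (B * η ^ (1 / (m : ℝ) - P.κ))) 
        (u1.trans (le_max_left _ _)) (u2.trans (le_max_right _ _))
      refine lt_of_le_of_lt hE ?_
      rcases max_cases (max (m * η ^ (1 / (m : ℝ)) / r) (η / r))
        (B * η ^ (1 / (m : ℝ) - P.κ)) with ⟨h', _⟩ | ⟨h', _⟩
      · rw [h']; exact hη1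
      · rw [h']; exact hη2
    · -- the second coordinate tends to zero
      have hnd : nd i = true := hdn t1
      have hs1 : ∀ z ∈ closedBall z₀ r, ‖((χ i).q (F k z)).2‖ ≤ η := by
        intro z hz
        have := (hdist z hz).2
        rwa [t2 z hz, zero_sub, norm_neg] at this
      have r3 : LimNear_g m d.2 ‖((χ i).q (F k z₀)).2‖ *
          ‖(fderiv ℂ (χ i).q (F k z₀) (deriv (F k) z₀)).2‖ ≤
          max (m * η ^ (1 / (m : ℝ)) / r) (η / r) := by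
        rw [hder2]
        exact LimNear_root hr hm hq2 hn2 hs1
      have f3 : LimNear_g m d.2 ‖((χ i).q (F k z₀)).2‖ *
          (if nd i = true then ‖((χ i).q (F k z₀)).2‖ ^ (1 - P.κ) else 1) ≤
          η ^ (1 / (m : ℝ) - P.κ) := by
        rw [if_pos hnd, t1, LimNear_g_true hm (norm_pos_iff.2 (hn2 t1 z₀ hzr))]
        exact Real.rpow_le_rpow (norm_nonneg _) (hs1 z₀ hzr) hlam.le
      have u1 := mul_le_mul r3 f1 f1' hEnn
      have u2 := mul_le_mul r1 f3 f2' hBnn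
      rw [mul_one] at u1
      have hE := hEst (max (max (m * η ^ (1 / (m : ℝ)) / r) (η / r))
        (B * η ^ (1 / (m : ℝ) - P.κ))) 
        (u2.trans (le_max_right _ _)) (u1.trans (le_max_left _ _))
      refine lt_of_le_of_lt hE ?_
      rcases max_cases (max (m * η ^ (1 / (m : ℝ)) / r) (η / r))
        (B * η ^ (1 / (m : ℝ) - P.κ)) with ⟨h', _⟩ | ⟨h', _⟩
      · rw [h']; exact hη1
      · rw [h']; exact hη2

private theorem LimNear_pair {A B : Type*} [TopologicalSpace A] [TopologicalSpace B]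
    {f : A → B → ℝ} {a : A} {b : B} (h : ContinuousAt (fun p : A × B => f p.1 p.2) (a, b))
    {l : Filter ℕ} {x : ℕ → A} {y : ℕ → B} (hx : Tendsto x l (𝓝 a)) (hy : Tendsto y l (𝓝 b)) :
    Tendsto (fun k => f (x k) (y k)) l (𝓝 (f a b)) :=
  h.tendsto.comp (hx.prodMk_nhds hy)

/-- the far piece: `rho` and `fs` are continuous, `rho (H z₀) = 0`, and the derivatives
converge -/
theorem lim_far (hX : IsCone X) (hK : IsOpenPart X K) (hQ : IsEq X T Q D)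
    (hKT : ∀ x ∈ X, x ∉ K → x ∈ T) (hM' : 1 ≤ M') (l : Filter ℕ) (hl : l.NeBot)
    {F : ℕ → ℂ → EN N} {H : ℂ → EN N} {z₀ : ℂ} {s : ℝ} (hs : 0 < s)
    (hF : ∀ᶠ k in l, Curve K (ball z₀ s) (F k))
    (hlim : TendstoLocallyUniformlyOn F H l (ball z₀ s)) (h0 : H z₀ ≠ 0)
    (hH : ∀ z ∈ ball z₀ s, H z ∉ K) {ε : ℝ} (hε : 0 < ε) :
    ∀ᶠ k in l, rho Q D (F k z₀) ^ M' * fs (F k z₀) (deriv (F k) z₀) < ε := by
  have hev : ∀ᶠ k in l, DifferentiableOn ℂ (F k) (ball z₀ s) := hF.mono fun k hk => hk.1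
  have hz₀ : z₀ ∈ ball z₀ s := mem_ball_self hs
  have hconv : Tendsto (fun k => F k z₀) l (𝓝 (H z₀)) := hlim.tendsto_at hz₀
  have hconv' : Tendsto (fun k => deriv (F k) z₀) l (𝓝 (deriv H z₀)) :=
    (hlim.deriv hev isOpen_ball).tendsto_at hz₀
  have hHX : H z₀ ∈ X := by
    have : H z₀ ∈ insert (0 : EN N) X := by
      refine hX.closed.mem_of_tendsto hconv ?_
      filter_upwards [hF] with k hk
      exact Set.mem_insert_of_mem _ (hK.subset (hk.2 z₀ hz₀))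
    exact this.resolve_left h0
  have hT : H z₀ ∈ T := hKT _ hHX (hH z₀ hz₀)
  have hQ0 : Q (H z₀) = 0 := ((hQ.mem_iff _).1 hT).2
  have hrho : rho Q D (H z₀) = 0 := (rho_eq_zero_iff h0).2 hQ0
  have t1 : Tendsto (fun k => rho Q D (F k z₀)) l (𝓝 (rho Q D (H z₀))) :=
    (continuousAt_rho hQ.analytic h0).tendsto.comp hconv
  have t2 : Tendsto (fun k => fs (F k z₀) (deriv (F k) z₀)) l (𝓝 (fs (H z₀) (deriv H z₀))) := by
    exact LimNear_pair (f := fs) (continuousAt_fs h0 (deriv H z₀)) hconv hconv'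
  have t3 : Tendsto (fun k => rho Q D (F k z₀) ^ M' * fs (F k z₀) (deriv (F k) z₀)) l
      (𝓝 (rho Q D (H z₀) ^ M' * fs (H z₀) (deriv H z₀))) := (t1.pow M').mul t2
  rw [hrho, zero_pow (by omega : M' ≠ 0), zero_mul] at t3
  exact t3.eventually (gt_mem_nhds hε)

end Pool.Agent.H14.PP
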